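import Pool.Agent.Helper8.CO.FamMov
import Pool.Agent.Helper91.CO.Stat
import Pool.Agent.Helper8.LG.Poly

/-! # CO: the family given by polynomials -/

set_option autoImplicit false

open MvPolynomial

namespace Pool.Agent.Helper8.CO

open scoped BigOperators
open Pool.Agent.Helper8.LG Pool.Agent.Helper6.CO Pool.Agent.Helper91.CO

section

variable {k R σ V : Type*} [CommRing k] [CommRing R] [Algebra k R]

/-- `F'` is `F` with the derivation `δ` applied to the coefficients -/
def IsD (δ : Derivation k R R) (F F' : MvPolynomial σ R) : Prop :=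
  ∀ m, δ (coeff m F) = coeff m F'

theorem IsD.add {δ : Derivation k R R} {F F' G G' : MvPolynomial σ R} (hF : IsD δ F F')
    (hG : IsD δ G G') : IsD δ (F + G) (F' + G') := fun m => by
  rw [coeff_add, map_add, hF m, hG m, coeff_add]

theorem IsD.mul {δ : Derivation k R R} {F F' G G' : MvPolynomial σ R} (hF : IsD δ F F')
    (hG : IsD δ G G') : IsD δ (F * G) (F * G' + G * F') := fun m => by
  classical
  rw [coeff_mul, map_sum, coeff_add, mul_comm G F', coeff_mul, coeff_mul,
    ← Finset.sum_add_distrib]
  refine Finset.sum_congr rfl fun p _ => ?_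
  rw [Derivation.leibniz, hF, hG, smul_eq_mul, smul_eq_mul]
  ring

theorem IsD.const {δ : Derivation k R R} (c : k) :
    IsD δ (algebraMap k (MvPolynomial σ R) c) 0 := fun m => by
  classical
  rw [MvPolynomial.algebraMap_apply, coeff_C, coeff_zero]
  split_ifs
  · exact δ.map_algebraMap c
  · exact map_zero δ

theorem IsD.var {δ : Derivation k R R} (l : σ) : IsD δ (X l : MvPolynomial σ R) 0 := fun m => by
  classical
  rw [coeff_X, coeff_zero]
  split_ifs
  · exact δ.map_one_eq_zero
  · exact map_zero δ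

theorem isD_aeval [Fintype V] (δ : Derivation k R R) (f f' : V → MvPolynomial σ R)
    (hf : ∀ v, IsD δ (f v) (f' v)) (F : MvPolynomial V k) :
    IsD δ (aeval f F) (∑ v, aeval f (pderiv v F) * f' v) := by
  classical
  induction F using MvPolynomial.induction_on with
  | C c =>
    have h1 : (∑ v, aeval f (pderiv v (C c)) * f' v) = 0 :=
      Finset.sum_eq_zero fun v _ => by rw [pderiv_C, map_zero, zero_mul]
    rw [h1, aeval_C]
    exact IsD.const c
  | add P Q hP hQ =>
    have h1 : (∑ v, aeval f (pderiv v (P + Q)) * f' v) =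
        (∑ v, aeval f (pderiv v P) * f' v) + ∑ v, aeval f (pderiv v Q) * f' v := by
      rw [← Finset.sum_add_distrib]
      exact Finset.sum_congr rfl fun v _ => by rw [map_add, map_add, add_mul]
    rw [h1, map_add]
    exact hP.add hQ
  | mul_X P j hP =>
    have h1 : (∑ v, aeval f (pderiv v (P * X j)) * f' v) =
        aeval f P * f' j + f j * ∑ v, aeval f (pderiv v P) * f' v := by
      have h2 : ∀ v, aeval f (pderiv v (P * X j)) * f' v =
          aeval f P * (if v = j then f' j else 0) + f j * (aeval f (pderiv v P) * f' v) := by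
        intro v
        rw [Derivation.leibniz, pderiv_X]
        simp only [smul_eq_mul, map_add, map_mul, aeval_X]
        by_cases hs : v = j
        · subst hs
          rw [if_pos rfl, Pi.single_eq_same, map_one]
          ring
        · rw [if_neg hs, Pi.single_eq_of_ne (Ne.symm hs), map_zero]
          ring
      rw [Finset.sum_congr rfl fun v _ => h2 v, Finset.sum_add_distrib, ← Finset.mul_sum,
        ← Finset.mul_sum, Finset.sum_ite_eq' Finset.univ j]
      simp only [Finset.mem_univ, if_true]
    rw [h1, map_mul, aeval_X]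
    exact hP.mul (hf j)

end

section

variable {k : Type*} [Field k] {N : ℕ} {κ : Type*} [DecidableEq κ]

/-- the generic form of degree `q t` -/
noncomputable def gen (k : Type*) [Field k] {N : ℕ} {κ : Type*} (q : κ → ℕ) (t : κ) :
    MvPolynomial (Fin (N + 1)) (MvPolynomial (Ix (Fin (N + 1)) q) k) :=
  ∑ J : Sym (Fin (N + 1)) (q t),
    monomial (Multiset.toFinsupp (J : Multiset (Fin (N + 1)))) (X (⟨t, J⟩ : Ix (Fin (N + 1)) q))

omit [DecidableEq κ] in
theorem gen_map {L : Type*} [Field L] [Algebra k L] (q : κ → ℕ)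
    (H : κ → MvPolynomial (Fin (N + 1)) L) (hH : ∀ t, (H t).IsHomogeneous (q t)) (t : κ) :
    mapAlgHom (aeval fun s : Ix (Fin (N + 1)) q => cf (q s.1) (H s.1) s.2) (gen k q t) = H t := by
  classical
  rw [gen, map_sum]
  have h1 : ∀ J : Sym (Fin (N + 1)) (q t),
      mapAlgHom (aeval fun s : Ix (Fin (N + 1)) q => cf (q s.1) (H s.1) s.2)
        (monomial (Multiset.toFinsupp (J : Multiset (Fin (N + 1))))
          (X (⟨t, J⟩ : Ix (Fin (N + 1)) q) : MvPolynomial (Ix (Fin (N + 1)) q) k)) =
      monomial (Multiset.toFinsupp (J : Multiset (Fin (N + 1)))) (cf (q t) (H t) J) := by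
    intro J
    rw [mapAlgHom_apply, map_monomial]
    congr 1
    simp
  rw [Finset.sum_congr rfl fun J _ => h1 J]
  ext m
  rw [coeff_sum]
  simp only [coeff_monomial]
  by_cases hm : m.degree = q t
  · obtain ⟨J, hJ⟩ := poly_exists_sym m hm
    rw [Finset.sum_eq_single J]
    · rw [if_pos hJ, cf, hJ]
    · intro J' _ hne
      rw [if_neg]
      intro h
      exact hne (poly_toFinsupp_inj (h.trans hJ.symm))
    · intro h
      exact absurd (Finset.mem_univ J) h
  · rw [(hH t).coeff_eq_zero hm, Finset.sum_eq_zero]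
    intro J _
    rw [if_neg]
    intro h
    apply hm
    rw [← h, Finsupp.degree_eq_sum]
    have h2 : Multiset.card (J : Multiset (Fin (N + 1))) = q t := J.2
    refine Eq.trans ?_ h2
    have h3 := Multiset.toFinsupp_sum_eq (J : Multiset (Fin (N + 1)))
    refine Eq.trans ?_ h3
    exact (Finsupp.sum_fintype _ (fun _ => id) fun _ => rfl).symm

theorem gen_isD (q : κ → ℕ) (s : Ix (Fin (N + 1)) q) (t : κ) :
    IsD (pderiv s : Derivation k _ _) (gen (N := N) k q t)
      (if s.1 = t then monomial (Multiset.toFinsupp (s.2 : Multiset (Fin (N + 1)))) 1 else 0) := by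
  classical
  intro m
  rw [gen, coeff_sum, map_sum]
  have h1 : ∀ J : Sym (Fin (N + 1)) (q t), pderiv s (coeff m
      (monomial (Multiset.toFinsupp (J : Multiset (Fin (N + 1))))
        (X (⟨t, J⟩ : Ix (Fin (N + 1)) q) : MvPolynomial (Ix (Fin (N + 1)) q) k))) =
      if Multiset.toFinsupp (J : Multiset (Fin (N + 1))) = m ∧ s = ⟨t, J⟩ then 1 else 0 := by
    intro J
    rw [coeff_monomial]
    by_cases h2 : Multiset.toFinsupp (J : Multiset (Fin (N + 1))) = m
    · rw [if_pos h2, pderiv_X]
      by_cases h3 : s = ⟨t, J⟩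
      · rw [if_pos ⟨h2, h3⟩, h3, Pi.single_eq_same]
      · rw [if_neg fun h => h3 h.2, Pi.single_eq_of_ne]
        exact fun h => h3 h.symm
    · rw [if_neg h2, map_zero, if_neg fun h => h2 h.1]
  rw [Finset.sum_congr rfl fun J _ => h1 J]
  obtain ⟨s1, s2⟩ := s
  by_cases hs : s1 = t
  · subst hs
    rw [if_pos rfl, coeff_monomial, Finset.sum_eq_single s2]
    · congr 1
      exact propext ⟨fun h => h.1, fun h => ⟨h, rfl⟩⟩
    · intro J _ hne
      rw [if_neg]
      rintro ⟨-, h⟩
      apply hne
      exact (eq_of_heq (Sigma.mk.inj h).2).symm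
    · intro h
      exact absurd (Finset.mem_univ s2) h
  · rw [if_neg hs, coeff_zero, Finset.sum_eq_zero]
    intro J _
    rw [if_neg]
    rintro ⟨-, h⟩
    exact hs (Sigma.mk.inj h).1

end

/-- the coefficients of `P X^J` -/
theorem cf_mul_monomial {L : Type*} [Field L] {N d b q : ℕ} (hdb : d = b + q)
    (P : MvPolynomial (Fin (N + 1)) L) (J'' : Sym (Fin (N + 1)) q) (J : Sym (Fin (N + 1)) d) :
    cf d (P * monomial (Multiset.toFinsupp (J'' : Multiset (Fin (N + 1)))) 1) J =
      ∑ J' : Sym (Fin (N + 1)) b,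
        if (J' : Multiset (Fin (N + 1))) + (J'' : Multiset (Fin (N + 1))) = (J : Multiset _)
          then cf b P J' else 0 := by
  classical
  rw [cf, coeff_mul_monomial', mul_one]
  split_ifs with h
  · -- the complement
    have h1 : (J'' : Multiset (Fin (N + 1))) ≤ (J : Multiset (Fin (N + 1))) := by
      refine Multiset.le_iff_count.2 fun l => ?_
      have h2 := h l
      simpa using h2
    have hc : Multiset.card ((J : Multiset (Fin (N + 1))) - (J'' : Multiset (Fin (N + 1)))) = b := by
      rw [Multiset.card_sub h1, Sym.card_coe, Sym.card_coe]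
      omega
    rw [Finset.sum_eq_single (Sym.mk _ hc)]
    · rw [if_pos (by rw [Sym.coe_mk]; exact tsub_add_cancel_of_le h1), cf, Sym.coe_mk]
      congr 1
      ext l
      simp
    · intro J' _ hne
      rw [if_neg]
      intro h2
      apply hne
      apply Sym.coe_injective
      rw [Sym.coe_mk, ← h2]
      exact (add_tsub_cancel_right _ _).symm
    · intro h2
      exact absurd (Finset.mem_univ _) h2
  · rw [Finset.sum_eq_zero]
    intro J' _
    rw [if_neg]
    intro h2
    apply h
    rw [← h2]
    intro l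
    simp

/-- the family of the coefficients -/
theorem fam_poly {k L : Type*} [Field k] [Field L] [Algebra k L] {N r n : ℕ} (d : Fin r → ℕ)
    (b : Fin r → Fin n → ℕ) (hb : ∀ i j, b i j ≤ d i)
    (F₀ : Fin r → MvPolynomial (Fin (N + 1) ⊕ Fin n) k)
    (H : Fin r → Fin n → MvPolynomial (Fin (N + 1)) L)
    (hH : ∀ i j, (H i j).IsHomogeneous (d i - b i j)) :
    ∃ Q : (i : Fin r) → Sym (Fin (N + 1)) (d i) →
        MvPolynomial (Ix (Fin (N + 1)) fun s : Fin r × Fin n => d s.1 - b s.1 s.2) k,
      Fam k (fun s : Fin r × Fin n => s.1) d (fun s => b s.1 s.2) (fun s => d s.1 - b s.1 s.2)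
        (fun i => cf (d i) (aeval (Sum.elim X (H i)) (F₀ i)))
        (fun s => cf (b s.1 s.2) (mder (F₀ s.1) (H s.1) s.2))
        (fun s => cf (d s.1 - b s.1 s.2) (H s.1 s.2)) Q := by
  classical
  set κ := Fin r × Fin n with hκ
  set q : κ → ℕ := fun s => d s.1 - b s.1 s.2 with hq
  set f : (i : Fin r) → (Fin (N + 1) ⊕ Fin n) →
      MvPolynomial (Fin (N + 1)) (MvPolynomial (Ix (Fin (N + 1)) q) k) := fun i =>
    Sum.elim X fun j => gen k q (i, j) with hf
  set φ : MvPolynomial (Ix (Fin (N + 1)) q) k →ₐ[k] L :=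
    aeval fun s : Ix (Fin (N + 1)) q => cf (q s.1) (H s.1.1 s.1.2) s.2 with hφ
  have hmap : ∀ i, (mapAlgHom φ).comp (aeval (f i)) =
      (aeval (Sum.elim X (H i)) : MvPolynomial (Fin (N + 1) ⊕ Fin n) k →ₐ[k] _) := by
    intro i
    refine MvPolynomial.algHom_ext fun v => ?_
    rw [AlgHom.comp_apply, aeval_X, aeval_X]
    rcases v with l | j
    · show mapAlgHom φ (X l) = X l
      rw [mapAlgHom_apply, MvPolynomial.map_X]
    · exact gen_map (k := k) q (fun s : κ => H s.1 s.2) (fun t => hH t.1 t.2) (i, j)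
  have hmap' : ∀ i (E : MvPolynomial (Fin (N + 1) ⊕ Fin n) k) (m : Fin (N + 1) →₀ ℕ),
      φ (coeff m (aeval (f i) E)) = coeff m (aeval (Sum.elim X (H i)) E) := by
    intro i E m
    rw [← hmap i, AlgHom.comp_apply, mapAlgHom_apply]
    exact (coeff_map _ _ _).symm
  refine ⟨fun i J => coeff (Multiset.toFinsupp (J : Multiset (Fin (N + 1))))
    (aeval (f i) (F₀ i)), ?_, ?_, ?_⟩
  · rintro ⟨i, j⟩
    exact (Nat.add_sub_cancel' (hb i j)).symm
  · intro i J
    exact hmap' i (F₀ i) _
  · intro i J s
    set f' : (Fin (N + 1) ⊕ Fin n) →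
        MvPolynomial (Fin (N + 1)) (MvPolynomial (Ix (Fin (N + 1)) q) k) :=
      Sum.elim (fun _ => 0) fun j => if s.1 = (i, j) then
        monomial (Multiset.toFinsupp (s.2 : Multiset (Fin (N + 1)))) 1 else 0 with hf'
    have h1 : ∀ v, IsD (pderiv s : Derivation k _ _) (f i v) (f' v) := by
      rintro (l | j)
      · exact IsD.var l
      · exact gen_isD q s (i, j)
    have h2 := isD_aeval (pderiv s : Derivation k _ _) (f i) f' h1 (F₀ i)
      (Multiset.toFinsupp (J : Multiset (Fin (N + 1))))
    show φ (pderiv s (coeff (Multiset.toFinsupp (J : Multiset (Fin (N + 1))))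
      (aeval (f i) (F₀ i)))) = _
    rw [h2]
    have h3 : (∑ v, aeval (f i) (pderiv v (F₀ i)) * f' v) =
        if s.1.1 = i then aeval (f i) (pderiv (Sum.inr s.1.2) (F₀ i)) *
          monomial (Multiset.toFinsupp (s.2 : Multiset (Fin (N + 1)))) 1 else 0 := by
      rw [Fintype.sum_sum_type]
      have h4 : ∀ l : Fin (N + 1), aeval (f i) (pderiv (Sum.inl l) (F₀ i)) * f' (Sum.inl l) = 0 :=
        fun l => mul_zero _
      rw [Finset.sum_congr rfl fun l _ => h4 l, Finset.sum_const_zero, zero_add]
      by_cases hs : s.1.1 = i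
      · rw [if_pos hs, Finset.sum_eq_single s.1.2]
        · congr 1
          show (if s.1 = (i, s.1.2) then _ else 0) = _
          have h5 : s.1 = (i, s.1.2) := by rw [← hs]
          rw [if_pos h5]
        · intro j _ hj
          show _ * (if s.1 = (i, j) then _ else 0) = 0
          rw [if_neg, mul_zero]
          intro h
          apply hj
          rw [h]
        · intro h
          exact absurd (Finset.mem_univ _) h
      · rw [if_neg hs]
        refine Finset.sum_eq_zero fun j _ => ?_
        show _ * (if s.1 = (i, j) then _ else 0) = 0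
        rw [if_neg, mul_zero]
        intro h
        apply hs
        rw [h]
    rw [h3]
    by_cases hs : s.1.1 = i
    · rw [if_pos hs, if_pos hs]
      subst hs
      have h5 : φ (coeff (Multiset.toFinsupp (J : Multiset (Fin (N + 1))))
          (aeval (f s.1.1) (pderiv (Sum.inr s.1.2) (F₀ s.1.1)) *
            monomial (Multiset.toFinsupp (s.2 : Multiset (Fin (N + 1)))) 1)) =
          cf (d s.1.1) (mder (F₀ s.1.1) (H s.1.1) s.1.2 *
            monomial (Multiset.toFinsupp (s.2 : Multiset (Fin (N + 1)))) 1) J := by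
        rw [cf, coeff_mul_monomial', coeff_mul_monomial', mul_one, mul_one]
        split_ifs
        · exact hmap' s.1.1 _ _
        · exact map_zero _
      rw [h5]
      exact cf_mul_monomial (Nat.add_sub_cancel' (hb s.1.1 s.1.2)).symm _ _ _
    · rw [if_neg hs, if_neg hs, coeff_zero, map_zero]

end Pool.Agent.Helper8.CO
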