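import Pool.Agent.Helper8.CO.Final
import Pool.Agent.Helper8.CO.FamPoly
import Pool.Agent.Helper91.CO.Chain
import Pool.Agent.Helper91.CO.NullSt

/-! # CO: the engine in terms of polynomials -/

set_option autoImplicit false

open MvPolynomial

namespace Pool.Agent.Helper8.CO

open scoped BigOperators
open Pool.Agent.Helper8.LG Pool.Agent.Helper6.CO Pool.Agent.Helper91.CO

theorem card_IxC {κ : Type*} [Fintype κ] {N : ℕ} (q : κ → ℕ) :
    Fintype.card (Ix (Fin (N + 1)) q) = ∑ s, (N + q s).choose N := by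
  rw [Fintype.card_sigma]
  refine Finset.sum_congr rfl fun i _ => ?_
  rw [Sym.card_sym_eq_choose, Fintype.card_fin]
  have h : N + 1 + q i - 1 = N + q i := by omega
  rw [h, Nat.choose_symm_add]

theorem adjoinC (k : Type*) {M : Type*} [Field k] [Field M] [Algebra k M] {N r n : ℕ}
    (q : Fin r → Fin n → ℕ) (H : Fin r → Fin n → MvPolynomial (Fin (N + 1)) M)
    (hH : ∀ i j, (H i j).IsHomogeneous (q i j)) :
    IntermediateField.adjoin k {z | ∃ i j J, z = coeff J (H i j)} =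
      IntermediateField.adjoin k (Set.range fun p : Ix (Fin (N + 1))
        (fun s : Fin r × Fin n => q s.1 s.2) => cf (q p.1.1 p.1.2) (H p.1.1 p.1.2) p.2) := by
  refine le_antisymm (IntermediateField.adjoin_le_iff.2 ?_) (IntermediateField.adjoin_le_iff.2 ?_)
  · rintro z ⟨i, j, m, rfl⟩
    by_cases h : m.degree = q i j
    · obtain ⟨J, hJ⟩ := poly_exists_sym m h
      refine IntermediateField.subset_adjoin _ _ ⟨⟨(i, j), J⟩, ?_⟩
      change coeff (Multiset.toFinsupp (J : Multiset (Fin (N + 1)))) (H i j) = _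
      rw [hJ]
    · rw [(hH i j).coeff_eq_zero h]
      exact zero_mem _
  · rintro z ⟨p, rfl⟩
    exact IntermediateField.subset_adjoin _ _ ⟨p.1.1, p.1.2, _, rfl⟩

theorem eng_C {k₀ L : Type*} [Field k₀] [Field L] [CharZero L] [Algebra k₀ L]
    (hfg : (⊤ : IntermediateField k₀ L).FG) {N r n : ℕ} (d q m : Fin r → ℕ)
    (b : Fin r → Fin n → ℕ) (hq : ∀ i, 0 < q i) (hbq : ∀ i j, b i j + q i ≤ d i)
    (F : Fin r → MvPolynomial (Fin (N + 1)) L)
    (F₀ : Fin r → MvPolynomial (Fin (N + 1) ⊕ Fin n) k₀)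
    (hF₀ : ∀ i, IsWeightedHomogeneous (wts N fun j => d i - b i j) (F₀ i) (d i))
    (H : Fin r → Fin n → MvPolynomial (Fin (N + 1)) L)
    (hH : ∀ i j, (H i j).IsHomogeneous (d i - b i j))
    (hFA : ∀ i, F i = aeval (Sum.elim X (H i)) (F₀ i))
    (w c : ℕ)
    (hcoef : ((∑ i, ∑ j, (N + (d i - b i j)).choose N : ℕ) : Cardinal) ≤
      Algebra.trdeg k₀ (IntermediateField.adjoin k₀ {z | ∃ i j J, z = coeff J (H i j)}) + c)
    (Z C T : Finset (Fin r)) (hZC : Disjoint Z C) (hm : ∀ i ∈ C, m i ∣ d i)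
    (hT : ∀ i ∈ T, ∀ y : Fin (N + 1) → AlgebraicClosure L,
      (∀ j, aeval y (mder (F₀ i) (H i) j) = 0) → y = 0)
    (hnum : 2 * w + 2 + c + ∑ i ∈ C, d i / m i ≤ ∑ i, Pool.Agent.Helper6.CO.qm T d q i + Z.card)
    (i₀ : Fin (N + 1)) (R : Subalgebra k₀ L) (hR : R.FG) :
    {x : Fin (N + 1) → L | x i₀ = 1 ∧
      (Algebra.trdeg k₀ (IntermediateField.adjoin k₀ (Set.range x)) ≤ w ∧
        (∀ i, ∃ j, eval x (mder (F₀ i) (H i) j) ≠ 0) ∧ (∀ i ∈ Z, eval x (F i) = 0) ∧
        ∀ i ∈ C, ∃ y : L, y ^ m i = eval x (F i)) ∧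
      ∀ i ∈ (Z ∪ C)ᶜ, eval x (F i) ≠ 0 ∧
        ∀ J : Sym (Fin (N + 1)) (d i), mon x J / eval x (F i) ∈ R}.Finite := by
  classical
  have hb : ∀ i j, b i j ≤ d i := fun i j => (Nat.le_add_right _ _).trans (hbq i j)
  obtain ⟨Q, hQ⟩ := fam_poly d b hb F₀ H hH
  have hdF : ∀ i, (F i).IsHomogeneous (d i) := fun i => by
    rw [hFA i]
    exact hom_aeval _ (F₀ i) (hF₀ i) (H i) (hH i)
  have hmd : ∀ i j, (mder (F₀ i) (H i) j).IsHomogeneous (b i j) := fun i j =>
    hom_mder _ (F₀ i) (hF₀ i) (H i) (hH i) j (Nat.add_sub_cancel' (hb i j)).symm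
  have hN := exists_nulP b (fun i j => mder (F₀ i) (H i) j) hmd T hT
  have hform : ∀ (x : Fin (N + 1) → L) i,
      form (cf (d i) (aeval (Sum.elim X (H i)) (F₀ i))) x = eval x (F i) := fun x i => by
    rw [← hFA i]
    exact form_cf _ (hdF i) x
  have hformP : ∀ (x : Fin (N + 1) → L) i j,
      form (cf (b i j) (mder (F₀ i) (H i) j)) x = eval x (mder (F₀ i) (H i) j) := fun x i j =>
    form_cf _ (hmd i j) x
  obtain ⟨S, hS⟩ : ∃ S : Finset (Fin r) → Set (Fin (N + 1) → L), S = fun C₀ => {x | x i₀ = 1 ∧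
      Algebra.trdeg k₀ (IntermediateField.adjoin k₀ (Set.range x)) ≤ w ∧
      (∀ i, ∃ t : Fin r × Fin n, t.1 = i ∧
        form (cf (b t.1 t.2) (mder (F₀ t.1) (H t.1) t.2)) x ≠ 0) ∧
      (∀ i ∈ Z ∪ C₀, form (cf (d i) (aeval (Sum.elim X (H i)) (F₀ i))) x = 0) ∧
      (∀ i ∉ Z ∪ C₀, form (cf (d i) (aeval (Sum.elim X (H i)) (F₀ i))) x ≠ 0) ∧
      (∀ i ∈ C \ C₀, ∃ y : L, y ^ m i =
        form (cf (d i) (aeval (Sum.elim X (H i)) (F₀ i))) x) ∧
      ∀ i ∉ Z ∪ C₀, i ∉ C \ C₀ → ∀ J : Sym (Fin (N + 1)) (d i),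
        IsIntegral R (mon x J / form (cf (d i) (aeval (Sum.elim X (H i)) (F₀ i))) x)} := ⟨_, rfl⟩
  have hSfin : ∀ C₀, (S C₀).Finite := by
    intro C₀
    by_cases hn : Nonempty (Fin r → Fin n)
    swap
    · -- no multipliers
      have hr : ∃ i : Fin r, ∀ j : Fin n, False := by
        by_contra hne
        push Not at hne
        exact hn ⟨fun i => (hne i).choose⟩
      obtain ⟨i, hi⟩ := hr
      refine Set.Finite.subset Set.finite_empty ?_
      rw [hS]
      rintro x ⟨-, -, h3, -⟩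
      obtain ⟨t, -, -⟩ := h3 i
      exact (hi t.2).elim
    obtain ⟨j₀⟩ := hn
    rw [hS]
    refine final_aux hfg (fun s : Fin r × Fin n => s.1) (fun s => b s.1 s.2)
      (fun s => d s.1 - b s.1 s.2) d q
      (fun i => if i ∈ C \ C₀ then d i / m i else 0) m
      (fun i => cf (d i) (aeval (Sum.elim X (H i)) (F₀ i)))
      (fun s => cf (b s.1 s.2) (mder (F₀ s.1) (H s.1) s.2))
      (fun s => cf (d s.1 - b s.1 s.2) (H s.1 s.2)) Q hQ w c ?_ (Z ∪ C₀) (C \ C₀) T i₀ ?_ hN R hR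
    · rw [card_IxC, Fintype.sum_prod_type]
      refine hcoef.trans (le_of_eq ?_)
      congr 1
      rw [adjoinC k₀ (fun i j => d i - b i j) H hH]
    · refine ⟨fun i => ?_, hq, fun t => ?_, ?_, ?_, ?_, ?_⟩
      · have := hq i
        have := hbq i (j₀ i)
        omega
      · have := hbq t.1 t.2
        omega
      · intro i hi hi'
        rw [Finset.mem_sdiff] at hi
        rcases Finset.mem_union.1 hi' with h | h
        · exact Finset.disjoint_left.1 hZC h hi.1
        · exact hi.2 h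
      · intro i hi
        rw [if_pos hi]
        exact (Nat.mul_div_cancel' (hm i (Finset.mem_sdiff.1 hi).1)).symm
      · intro i hi
        exact if_neg hi
      · have h1 : ∑ i, (if i ∈ C \ C₀ then d i / m i else 0) ≤ ∑ i ∈ C, d i / m i := by
          rw [← Finset.sum_filter]
          refine Finset.sum_le_sum_of_subset (fun i hi => ?_)
          exact (Finset.mem_sdiff.1 (Finset.mem_filter.1 hi).2).1
        have h2 : Z.card ≤ (Z ∪ C₀).card := Finset.card_le_card Finset.subset_union_left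
        omega
  refine (Set.finite_iUnion hSfin).subset ?_
  rintro x ⟨h1, ⟨h2, h6, h3, h4⟩, h5⟩
  rw [Set.mem_iUnion]
  refine ⟨C.filter (fun i => eval x (F i) = 0), ?_⟩
  rw [hS]
  have hnz : ∀ i ∉ Z ∪ C.filter (fun i => eval x (F i) = 0), eval x (F i) ≠ 0 := by
    intro i hi
    rw [Finset.mem_union, Finset.mem_filter] at hi
    push Not at hi
    by_cases hiC : i ∈ C
    · exact hi.2 hiC
    · refine (h5 i ?_).1
      rw [Finset.mem_compl, Finset.mem_union]
      push Not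
      exact ⟨hi.1, hiC⟩
  refine ⟨h1, h2, ?_, ?_, ?_, ?_, ?_⟩
  · intro i
    obtain ⟨j, hj⟩ := h6 i
    refine ⟨(i, j), rfl, ?_⟩
    rw [hformP]
    exact hj
  · intro i hi
    rw [hform]
    rcases Finset.mem_union.1 hi with h | h
    · exact h3 i h
    · exact (Finset.mem_filter.1 h).2
  · intro i hi
    rw [hform]
    exact hnz i hi
  · intro i hi
    rw [hform]
    exact h4 i (Finset.mem_sdiff.1 hi).1
  · intro i hi hi' J
    have hiZ : i ∉ Z := fun h => hi (Finset.mem_union_left _ h)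
    have hiC : i ∉ C := by
      intro h
      apply hi'
      rw [Finset.mem_sdiff]
      exact ⟨h, fun h' => hi (Finset.mem_union_right _ h')⟩
    rw [hform]
    have h7 := (h5 i (by
      rw [Finset.mem_compl, Finset.mem_union]
      push Not
      exact ⟨hiZ, hiC⟩)).2 J
    exact isIntegral_algebraMap (x := (⟨_, h7⟩ : R))

end Pool.Agent.Helper8.CO
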