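import Pool.Agent.Helper8.CO.FamPoly
import Pool.Agent.Helper8.LV.Multi

/-! # CO: from several moving forms to one for each index -/

set_option autoImplicit false

open MvPolynomial

namespace Pool.Agent.Helper8.CO

open scoped BigOperators
open Pool.Agent.Helper8.LG Pool.Agent.Helper6.CO Pool.Agent.Helper91.CO

/-- the chain rule for `pderiv` -/
theorem pderiv_aeval {k₀ k S S' : Type*} [Field k₀] [Field k] [Algebra k₀ k] [Fintype S]
    (g : S → MvPolynomial S' k) (s' : S') (Q : MvPolynomial S k₀) :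
    pderiv s' (aeval g Q) = ∑ s, aeval g (pderiv s Q) * pderiv s' (g s) := by
  classical
  induction Q using MvPolynomial.induction_on with
  | C c =>
    rw [aeval_C, MvPolynomial.algebraMap_apply, pderiv_C]
    symm
    exact Finset.sum_eq_zero fun s _ => by rw [pderiv_C, map_zero, zero_mul]
  | add P Q hP hQ =>
    simp only [map_add, hP, hQ, add_mul, Finset.sum_add_distrib]
  | mul_X P j hP =>
    rw [map_mul, aeval_X, Derivation.leibniz, hP]
    have h1 : ∀ s, aeval g (pderiv s (P * X j)) * pderiv s' (g s) =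
        aeval g P * (if s = j then pderiv s' (g j) else 0) +
          g j * (aeval g (pderiv s P) * pderiv s' (g s)) := by
      intro s
      rw [Derivation.leibniz, pderiv_X]
      simp only [smul_eq_mul, map_add, map_mul, aeval_X]
      by_cases hs : s = j
      · subst hs
        rw [if_pos rfl, Pi.single_eq_same, map_one]
        ring
      · rw [if_neg hs, Pi.single_eq_of_ne (Ne.symm hs), map_zero]
        ring
    rw [Finset.sum_congr rfl fun s _ => h1 s, Finset.sum_add_distrib, ← Finset.mul_sum,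
      ← Finset.mul_sum, Finset.sum_ite_eq' Finset.univ j]
    simp only [Finset.mem_univ, if_true, smul_eq_mul]

/-- put the coefficients of some of the moving forms into the field of constants -/
theorem fam_choose {k₀ L σ ι κ κ' : Type*} [Field k₀] [Field L] [Algebra k₀ L] [Fintype σ]
    [DecidableEq σ] [Fintype κ] [DecidableEq κ] [Fintype κ'] [DecidableEq ι] {bl : κ → ι}
    {d : ι → ℕ} {b q : κ → ℕ}
    {a : (i : ι) → Sym σ (d i) → L} {p : (t : κ) → Sym σ (b t) → L}
    {h : (t : κ) → Sym σ (q t) → L} {Q : (i : ι) → Sym σ (d i) → MvPolynomial (Ix σ q) k₀}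
    (H : Fam k₀ bl d b q a p h Q) (k : IntermediateField k₀ L) (ε : κ' → κ)
    (hε : Function.Injective ε) (hk : ∀ t, t ∉ Set.range ε → ∀ J, h t J ∈ k) :
    ∃ Q' : (i : ι) → Sym σ (d i) → MvPolynomial (Ix σ fun t => q (ε t)) k,
      Fam k (fun t => bl (ε t)) d (fun t => b (ε t)) (fun t => q (ε t)) a
        (fun t => p (ε t)) (fun t => h (ε t)) Q' := by
  classical
  -- the substitution
  set g : Ix σ q → MvPolynomial (Ix σ fun t => q (ε t)) k := fun s =>
    if hs : ∃ t', ε t' = s.1 then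
      X (⟨hs.choose, Sym.cast (congrArg q hs.choose_spec.symm) s.2⟩ : Ix σ fun t => q (ε t))
    else C ⟨h s.1 s.2, hk s.1 (fun ⟨t', ht'⟩ => hs ⟨t', ht'⟩) s.2⟩ with hg
  have hg1 : ∀ (t' : κ') (J : Sym σ (q (ε t'))),
      g ⟨ε t', J⟩ = X (⟨t', J⟩ : Ix σ fun t => q (ε t)) := by
    intro t' J
    have hs : ∃ t'', ε t'' = ε t' := ⟨t', rfl⟩
    have h1 : g ⟨ε t', J⟩ = X (⟨hs.choose, Sym.cast (congrArg q hs.choose_spec.symm) J⟩ :
      Ix σ fun t => q (ε t)) := dif_pos hs
    have h2 : ∀ (t'' : κ') (e : ε t'' = ε t'),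
        (⟨t'', Sym.cast (congrArg q e.symm) J⟩ : Ix σ fun t => q (ε t)) = ⟨t', J⟩ := by
      intro t'' e
      have h3 := hε e
      subst h3
      rfl
    rw [h1, h2 _ hs.choose_spec]
  have hg2 : ∀ (t : κ) (ht : t ∉ Set.range ε) (J : Sym σ (q t)),
      g ⟨t, J⟩ = C ⟨h t J, hk t ht J⟩ := by
    intro t ht J
    have hs : ¬ ∃ t', ε t' = t := fun ⟨t', ht'⟩ => ht ⟨t', ht'⟩
    exact dif_neg hs
  have hval : ((aeval fun s : Ix σ (fun t => q (ε t)) => h (ε s.1) s.2 :
      MvPolynomial (Ix σ fun t => q (ε t)) k →ₐ[k] L).restrictScalars k₀).comp (aeval g) =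
      (aeval fun s : Ix σ q => h s.1 s.2) := by
    refine MvPolynomial.algHom_ext fun s => ?_
    rw [AlgHom.comp_apply, aeval_X, aeval_X, AlgHom.restrictScalars_apply]
    obtain ⟨t, J⟩ := s
    by_cases ht : t ∈ Set.range ε
    · obtain ⟨t', rfl⟩ := ht
      rw [hg1, aeval_X]
    · rw [hg2 t ht J, aeval_C]
      rfl
  have hval' : ∀ P : MvPolynomial (Ix σ q) k₀,
      aeval (fun s : Ix σ (fun t => q (ε t)) => h (ε s.1) s.2) (aeval g P) =
        aeval (fun s : Ix σ q => h s.1 s.2) P := fun P => DFunLike.congr_fun hval P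
  refine ⟨fun i J => aeval g (Q i J), ⟨fun t => H.deg (ε t), fun i J => ?_, fun i J s => ?_⟩⟩
  · rw [hval']
    exact H.eq i J
  · rw [pderiv_aeval, map_sum, Finset.sum_eq_single (⟨ε s.1, s.2⟩ : Ix σ q)]
    · rw [hg1, pderiv_X_self, mul_one, hval']
      exact H.der i J ⟨ε s.1, s.2⟩
    · rintro ⟨t, J'⟩ _ hne
      have h1 : pderiv s (g ⟨t, J'⟩) = 0 := by
        by_cases ht : t ∈ Set.range ε
        · obtain ⟨t', rfl⟩ := ht
          rw [hg1, pderiv_X_of_ne]
          rintro rfl
          exact hne rfl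
        · rw [hg2 t ht J', pderiv_C]
      rw [h1, mul_zero, map_zero]
    · intro h1
      exact absurd (Finset.mem_univ _) h1

/-- one moving form for each index -/
theorem multi_C {k₀ L : Type*} [Field k₀] [Field L] [Algebra k₀ L] {N r n : ℕ} (d : Fin r → ℕ)
    (b : Fin r → Fin n → ℕ) (hb : ∀ i j, b i j ≤ d i)
    (F₀ : Fin r → MvPolynomial (Fin (N + 1) ⊕ Fin n) k₀)
    (H : Fin r → Fin n → MvPolynomial (Fin (N + 1)) L)
    (hH : ∀ i j, (H i j).IsHomogeneous (d i - b i j)) (c : ℕ)
    (hcoef : ((∑ i, ∑ j, (N + (d i - b i j)).choose N : ℕ) : Cardinal) ≤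
      Algebra.trdeg k₀ (IntermediateField.adjoin k₀ {z | ∃ i j J, z = coeff J (H i j)}) + c)
    (j : Fin r → Fin n) :
    ∃ (k : IntermediateField k₀ L) (Q : (i : Fin r) → Sym (Fin (N + 1)) (d i) →
        MvPolynomial (Ix (Fin (N + 1)) fun i : Fin r => d i - b i (j i)) k),
      Fam k (fun i : Fin r => i) d (fun i => b i (j i)) (fun i => d i - b i (j i))
        (fun i => cf (d i) (aeval (Sum.elim X (H i)) (F₀ i)))
        (fun i => cf (b i (j i)) (mder (F₀ i) (H i) (j i)))
        (fun i => cf (d i - b i (j i)) (H i (j i))) Q ∧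
      ((∑ i, (N + (d i - b i (j i))).choose N : ℕ) : Cardinal) ≤ Algebra.trdeg k
        (IntermediateField.adjoin k {z | ∃ i J, z = coeff J (H i (j i))}) + c := by
  classical
  obtain ⟨Q, hQ⟩ := fam_poly d b hb F₀ H hH
  set T : Set L := {z | ∃ i l, l ≠ j i ∧ ∃ J, z = coeff J (H i l)} with hT
  set k : IntermediateField k₀ L := IntermediateField.adjoin k₀ T with hk
  set T' : Set L := {z | ∃ i J, z = coeff J (H i (j i))} with hT'
  obtain ⟨Q', hQ'⟩ := fam_choose hQ k (fun i : Fin r => (i, j i))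
    (fun i i' h => (Prod.ext_iff.1 h).1) (by
      rintro ⟨i, l⟩ hil J
      refine IntermediateField.subset_adjoin _ _ ⟨i, l, ?_, _, rfl⟩
      rintro rfl
      exact hil ⟨i, rfl⟩)
  refine ⟨k, Q', hQ', ?_⟩
  -- the transcendence degree
  set ι : Type := Σ p : {p : Fin r × Fin n // p.2 ≠ j p.1},
    Sym (Fin (N + 1)) (d p.1.1 - b p.1.1 p.1.2) with hι
  set y : ι → L := fun q => coeff (Multiset.toFinsupp (q.2 : Multiset (Fin (N + 1))))
    (H q.1.1.1 q.1.1.2) with hy
  have hk' : k = IntermediateField.adjoin k₀ (Set.range y) := by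
    refine le_antisymm (IntermediateField.adjoin_le_iff.2 ?_)
      (IntermediateField.adjoin_le_iff.2 ?_)
    · rintro z ⟨i, l, hl, m, rfl⟩
      by_cases h : m.degree = d i - b i l
      · obtain ⟨J, hJ⟩ := LV.multi_exists_sym m h
        refine IntermediateField.subset_adjoin _ _ ⟨⟨⟨(i, l), hl⟩, J⟩, ?_⟩
        change coeff (Multiset.toFinsupp (J : Multiset (Fin (N + 1)))) (H i l) = _
        rw [hJ]
      · rw [(hH i l).coeff_eq_zero h]
        exact zero_mem _
    · rintro z ⟨q, rfl⟩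
      exact IntermediateField.subset_adjoin _ _ ⟨q.1.1.1, q.1.1.2, q.1.2, _, rfl⟩
  have hcard : Fintype.card ι =
      ∑ i, ∑ l ∈ Finset.univ.erase (j i), (N + (d i - b i l)).choose N := by
    change Fintype.card (Σ p : {p : Fin r × Fin n // p.2 ≠ j p.1},
      Sym (Fin (N + 1)) (d p.1.1 - b p.1.1 p.1.2)) = _
    rw [Fintype.card_sigma]
    have h1 : ∀ p : {p : Fin r × Fin n // p.2 ≠ j p.1},
        Fintype.card (Sym (Fin (N + 1)) (d p.1.1 - b p.1.1 p.1.2)) =
          (fun p : Fin r × Fin n => (N + (d p.1 - b p.1 p.2)).choose N) p.1 := by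
      intro p
      rw [Sym.card_sym_eq_choose, Fintype.card_fin]
      have h : N + 1 + (d p.1.1 - b p.1.1 p.1.2) - 1 = N + (d p.1.1 - b p.1.1 p.1.2) := by
        omega
      rw [h]
      exact Nat.choose_symm_add.symm
    rw [Finset.sum_congr rfl fun p _ => h1 p]
    rw [← Finset.sum_subtype (Finset.univ.filter fun p : Fin r × Fin n => p.2 ≠ j p.1)
      (by simp) (fun p : Fin r × Fin n => (N + (d p.1 - b p.1 p.2)).choose N)]
    rw [Finset.sum_filter, Fintype.sum_prod_type]
    refine Finset.sum_congr rfl fun i _ => ?_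
    rw [← Finset.sum_filter]
    refine Finset.sum_congr ?_ fun l _ => rfl
    ext l
    simp
  have hk1 : Algebra.trdeg k₀ k ≤ (Fintype.card ι : Cardinal) := by
    rw [hk']
    exact LV.multi_trdeg_le y
  have hunion : ({z | ∃ i l J, z = coeff J (H i l)} : Set L) = T ∪ T' := by
    ext z
    constructor
    · rintro ⟨i, l, J, rfl⟩
      by_cases hl : l = j i
      · subst hl
        exact Or.inr ⟨i, J, rfl⟩
      · exact Or.inl ⟨i, l, hl, J, rfl⟩
    · rintro (⟨i, l, -, J, rfl⟩ | ⟨i, J, rfl⟩)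
      · exact ⟨i, l, J, rfl⟩
      · exact ⟨i, j i, J, rfl⟩
  rw [hunion, ← IntermediateField.adjoin_adjoin_left] at hcoef
  have htr : Algebra.trdeg k₀ k + Algebra.trdeg k (IntermediateField.adjoin k T') =
      Algebra.trdeg k₀ ((IntermediateField.adjoin k T').restrictScalars k₀) :=
    LV.multi_tower k (IntermediateField.adjoin k T')
  rw [← htr] at hcoef
  have hsum : ∑ i, ∑ l, (N + (d i - b i l)).choose N =
      Fintype.card ι + ∑ i, (N + (d i - b i (j i))).choose N := by
    rw [hcard, ← Finset.sum_add_distrib]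
    refine Finset.sum_congr rfl fun i _ => ?_
    rw [Finset.sum_erase_add _ _ (Finset.mem_univ (j i))]
  rw [hsum, Nat.cast_add] at hcoef
  have h3 : (Fintype.card ι : Cardinal) + ((∑ i, (N + (d i - b i (j i))).choose N : ℕ) : Cardinal)
      ≤ (Fintype.card ι : Cardinal) +
        (Algebra.trdeg k (IntermediateField.adjoin k T') + c) := by
    refine hcoef.trans ?_
    rw [add_assoc]
    exact add_le_add_left hk1 _
  exact (Cardinal.add_le_add_iff_of_lt_aleph0 (Cardinal.natCast_lt_aleph0)).1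
    (by rw [add_comm _ (Fintype.card ι : Cardinal), add_comm _ (Fintype.card ι : Cardinal)]; exact h3)

end Pool.Agent.Helper8.CO
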