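import Pool.Agent.Helper6.CO.Defs

/-! # CO: the Nullstellensatz certificate and its consequence at a valuation ring -/

set_option autoImplicit false

namespace Pool.Agent.Helper8.CO

open scoped BigOperators
open Pool.Agent.Helper8.LG Pool.Agent.Helper6.CO

/-- For `i ∈ Y` a power of every variable is a combination of the `m_t`, `bl t = i`. -/
def NulP {L σ ι κ : Type*} [Field L] [Fintype σ] [DecidableEq σ] [Fintype κ] [DecidableEq ι]
    (bl : κ → ι) {b : κ → ℕ} (p : (t : κ) → Sym σ (b t) → L) (Y : Finset ι) : Prop :=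
  ∀ i ∈ Y, ∀ l : σ, ∃ (R : ℕ) (B : κ → MvPolynomial σ L),
    (MvPolynomial.X l : MvPolynomial σ L) ^ R =
      ∑ t, if bl t = i then B t * form (fun J => MvPolynomial.C (p t J)) MvPolynomial.X else 0

theorem eval_form {L E σ : Type*} [Field L] [Field E] [Fintype σ] [DecidableEq σ] {n : ℕ}
    (f : L →+* E) (a : Sym σ n → L) (x : σ → E) :
    MvPolynomial.eval₂ f x (form (fun J => MvPolynomial.C (a J)) MvPolynomial.X) =
      form (fun J => f (a J)) x := by
  unfold form
  rw [← MvPolynomial.coe_eval₂Hom, map_sum]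
  refine Finset.sum_congr rfl fun J _ => ?_
  rw [map_mul, MvPolynomial.coe_eval₂Hom, MvPolynomial.eval₂_C]
  congr 1
  unfold mon
  rw [← MvPolynomial.coe_eval₂Hom, map_multiset_prod, Multiset.map_map]
  congr 1
  refine Multiset.map_congr rfl fun l _ => ?_
  simp

/-- an element of a valuation ring whose sum is one -/
theorem exists_unit_term {E ι : Type*} [Field E] (O : ValuationSubring E) (s : Finset ι)
    (f : ι → E) (h : ∑ i ∈ s, f i = 1) : ∃ i ∈ s, f i ≠ 0 ∧ (f i)⁻¹ ∈ O := by
  by_contra hcon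
  push Not at hcon
  have h1 : ∀ i ∈ s, O.valuation (f i) < 1 := by
    intro i hi
    by_cases h0 : f i = 0
    · rw [h0, map_zero]
      exact zero_lt_one
    · have h2 := hcon i hi h0
      rw [← O.valuation_le_one_iff, not_le, map_inv₀] at h2
      have h3 : O.valuation (f i) ≠ 0 := (O.valuation.ne_zero_iff).2 h0
      rwa [one_lt_inv₀ (zero_lt_iff.2 h3)] at h2
  have h2 : O.valuation (∑ i ∈ s, f i) < 1 :=
    O.valuation.map_sum_lt one_ne_zero h1
  rw [h, map_one] at h2
  exact lt_irrefl _ h2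

theorem mem_of_coeffs {L E σ : Type*} [Field L] [Field E] (f : L →+* E) (O : ValuationSubring E)
    (Δ : E) (B : MvPolynomial σ L) (hB : ∀ m, Δ * f (B.coeff m) ∈ O) (y : σ → E)
    (hy : ∀ l, y l ∈ O) : Δ * MvPolynomial.eval₂ f y B ∈ O := by
  rw [MvPolynomial.eval₂_eq, Finset.mul_sum]
  refine sum_mem fun m _ => ?_
  rw [← mul_assoc]
  exact mul_mem (hB m) (prod_mem fun l _ => pow_mem (hy l) _)

/-- the certificate bounds the `m_t` from below -/
theorem nul_bound {L E σ ι κ : Type*} [Field L] [Field E] [Fintype σ] [DecidableEq σ]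
    [Fintype κ] [DecidableEq ι] (bl : κ → ι) {b : κ → ℕ} (p : (t : κ) → Sym σ (b t) → L)
    (Y : Finset ι) (hN : NulP bl p Y) :
    ∃ S₀ : Set L, S₀.Finite ∧ ∀ (f : L →+* E) (O : ValuationSubring E) (Δ : E),
      (∀ s ∈ S₀, Δ * f s ∈ O) → ∀ x : σ → E, Nul bl (fun t J => f (p t J)) Y O Δ x := by
  classical
  unfold NulP at hN
  choose! R B hB using hN
  refine ⟨⋃ i ∈ Y, ⋃ l : σ, ⋃ t : κ, insert 0 (((B i l t).support.image (B i l t).coeff : Finset L) : Set L),
    ?_, ?_⟩
  · refine Set.Finite.biUnion Y.finite_toSet fun i _ => Set.finite_iUnion fun l =>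
      Set.finite_iUnion fun t => (Finset.finite_toSet _).insert 0
  · intro f O Δ hS x i hi j hj hxO
    set y : σ → E := fun l => x l / x j with hy
    have hyj : y j = 1 := div_self hj
    have h1 := congrArg (MvPolynomial.eval₂Hom f y) (hB i hi j)
    rw [map_pow, map_sum, MvPolynomial.coe_eval₂Hom, MvPolynomial.eval₂_X, hyj, one_pow] at h1
    obtain ⟨t, -, ht0, ht⟩ := exists_unit_term O Finset.univ _ h1.symm
    have hbl : bl t = i := by
      by_contra hne
      apply ht0
      rw [if_neg hne]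
      exact MvPolynomial.eval₂_zero _ _
    rw [if_pos hbl, MvPolynomial.eval₂_mul, eval_form] at ht0 ht
    refine ⟨t, hbl, right_ne_zero_of_mul ht0, ?_⟩
    have h2 : Δ * MvPolynomial.eval₂ f y (B i j t) ∈ O := by
      refine mem_of_coeffs f O Δ _ (fun m => ?_) y hxO
      apply hS
      refine Set.mem_biUnion hi (Set.mem_iUnion.2 ⟨j, Set.mem_iUnion.2 ⟨t, ?_⟩⟩)
      by_cases hm : (B i j t).coeff m = 0
      · exact Or.inl hm
      · exact Or.inr (Finset.mem_coe.2 (Finset.mem_image.2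
          ⟨m, MvPolynomial.mem_support_iff.2 hm, rfl⟩))
    have h3 : Δ * (form (fun J => f (p t J)) y)⁻¹ =
        (Δ * MvPolynomial.eval₂ f y (B i j t)) *
          (MvPolynomial.eval₂ f y (B i j t) * form (fun J => f (p t J)) y)⁻¹ := by
      have h4 : MvPolynomial.eval₂ f y (B i j t) ≠ 0 := left_ne_zero_of_mul ht0
      rw [mul_inv]
      field_simp
    rw [h3]
    exact mul_mem h2 ht

theorem nul_mul {E σ ι κ : Type*} [Field E] [Fintype σ] [DecidableEq σ]
    (bl : κ → ι) {b : κ → ℕ} (p : (t : κ) → Sym σ (b t) → E)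
    (Y : Finset ι) (O : ValuationSubring E) (Δ c : E) (hc : c ∈ O) (x : σ → E)
    (h : Nul bl p Y O Δ x) : Nul bl p Y O (c * Δ) x := by
  intro i hi j hj hxO
  obtain ⟨t, h1, h2, h3⟩ := h i hi j hj hxO
  refine ⟨t, h1, h2, ?_⟩
  rw [mul_assoc]
  exact mul_mem hc h3

theorem nulP_map {L E σ ι κ : Type*} [Field L] [Field E] [Fintype σ] [DecidableEq σ]
    [Fintype κ] [DecidableEq ι] (bl : κ → ι) {b : κ → ℕ} (p : (t : κ) → Sym σ (b t) → L)
    (Y : Finset ι) (hN : NulP bl p Y) (f : L →+* E) : NulP bl (fun t J => f (p t J)) Y := by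
  intro i hi l
  obtain ⟨R, B, h⟩ := hN i hi l
  refine ⟨R, fun t => MvPolynomial.map f (B t), ?_⟩
  have h1 := congrArg (MvPolynomial.map f) h
  rw [map_pow, MvPolynomial.map_X, map_sum] at h1
  rw [h1]
  refine Finset.sum_congr rfl fun t _ => ?_
  split_ifs
  · rw [map_mul]
    congr 1
    unfold form
    rw [map_sum]
    refine Finset.sum_congr rfl fun J _ => ?_
    rw [map_mul, MvPolynomial.map_C]
    congr 1
    unfold mon
    rw [map_multiset_prod, Multiset.map_map]
    congr 1
    refine Multiset.map_congr rfl fun l _ => ?_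
    simp
  · rw [map_zero]

end Pool.Agent.Helper8.CO
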