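import Pool.Agent.Helper8.LG.DirOne
import Pool.Agent.Helper8.CO.Cert

/-! # CO-DIR1: one direction of the base, first round -/

set_option autoImplicit false

namespace Pool.Agent.Helper8.CO

open Pool.Agent.Helper8.LG Pool.Agent.Helper8.LV Pool.Agent.Helper6.CO

open scoped BigOperators

/-- first round: the poles of `G x_l` are bounded -/
theorem dir_one {L : Type*} [Field L] [CharZero L] {σ ι κ τ P : Type*} [Fintype σ]
    [DecidableEq σ] [Fintype ι] [DecidableEq ι] [Fintype τ] [Finite P] (bl : κ → ι)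
    (b q : κ → ℕ) (d q₀ e m : ι → ℕ) (a : (i : ι) → Sym σ (d i) → L)
    (p : (t : κ) → Sym σ (b t) → L) (D : P → Derivation ℤ L L)
    (θ : τ → P → L)
    (Z C Y : Finset ι) (i₀ : σ) (w c : ℕ) (hnum : NumC bl q d q₀ e m Z C Y w c)
    (E₀ : Subfield L) (t : L) (ht : Transcendental E₀ t)
    (hfin : FiniteDimensional (Subfield.closure ((E₀ : Set L) ∪ {t})) L)
    (hE₀ : ∀ p, ∀ f ∈ E₀, D p f ∈ E₀)
    (hDt : ∀ p, D p t ∈ Subring.closure ((E₀ : Set L) ∪ {t}))
    (S : Set L) (hS : S.Finite) (hSa : ∀ p : Ix σ d, a p.1 p.2 ∈ S)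
    (hSθ : ∀ j s, θ j s ∈ S)
    (hN : ∀ (O : ValuationSubring L) (Δ : L), (∀ f ∈ S, Δ * f ∈ O) → ∀ x : σ → L,
      Nul bl p Y O Δ x) :
    ∃ Δ : L, Δ ≠ 0 ∧ ∀ (x : σ → L) (y : ι → L) (G : L),
      GoodV d m a D Z C i₀ w (Subring.closure ((E₀ : Set L) ∪ S)) x y →
      KeyC bl d e a p D θ Z Y (uu C y) x G →
      ∀ l, Δ * (G * x l) ∈ intCl E₀ t := by
  obtain ⟨Δ₀, hΔc, hΔ0, hΔD, hΔS⟩ := exists_bound E₀ t ht hfin D hE₀ hDt S hS
  obtain ⟨hDed, hFrac⟩ := intCl_dedekind E₀ t ht hfin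
  have hcl : Subring.closure ((E₀ : Set L) ∪ {t}) ≤ intCl E₀ t := by
    intro f hf
    exact isIntegral_algebraMap (R := Subring.closure ((E₀ : Set L) ∪ {t})) (x := ⟨f, hf⟩)
  have hE₀R : ∀ f ∈ E₀, f ∈ intCl E₀ t := fun f hf =>
    hcl (Subring.subset_closure (Or.inl hf))
  have hQ : ∀ n : ℕ, n ≠ 0 → ((n : L))⁻¹ ∈ intCl E₀ t := fun n _ =>
    hE₀R _ (E₀.inv_mem (natCast_mem E₀ n))
  have hΔR : Δ₀ ∈ intCl E₀ t := hcl hΔc
  refine ⟨(Δ₀ ^ 3) ^ (2 * (Fintype.card σ + Fintype.card ι + Fintype.card τ)), pow_ne_zero _ (pow_ne_zero _ hΔ0), ?_⟩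
  intro x y G hgood hkey l
  refine mem_of (intCl E₀ t) _ fun O hO => ?_
  have hb : Bdd D Δ₀ O := bdd_of (intCl E₀ t) D Δ₀ hΔR hΔD O hO
  have hΔO : Δ₀ ∈ O := hb.1
  refine hkey O (Δ₀ ^ 3) ⟨pow_mem hΔO 3, fun p f hf => ?_⟩ (fun j s => ?_) ?_ ?_ l
  · have h1 : Δ₀ ^ 3 * D p f = Δ₀ ^ 2 * (Δ₀ * D p f) := by ring
    rw [h1]
    exact mul_mem (pow_mem hΔO 2) (hb.2 p f hf)
  · have h1 : Δ₀ ^ 3 * θ j s = Δ₀ ^ 2 * (Δ₀ * θ j s) := by ring
    rw [h1]
    exact mul_mem (pow_mem hΔO 2) (hO (hΔS _ (hSθ j s)))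
  swap
  · have h1 : Δ₀ ^ 3 = Δ₀ ^ 2 * Δ₀ := by ring
    rw [h1]
    exact nul_mul bl p Y O Δ₀ _ (pow_mem hΔO 2) x
      (hN O Δ₀ (fun f hf => hO (hΔS f hf)) x)
  intro i hi j hj hxO
  have hane : form (a i) x ≠ 0 := hgood.ne i hi
  have hgeq : form (a i) (fun l => x l / x j) = form (a i) x / x j ^ d i :=
    dirOne_form_div (a i) x (x j)
  have hg0 : form (a i) (fun l => x l / x j) ≠ 0 := by
    rw [hgeq]
    exact div_ne_zero hane (pow_ne_zero _ hj)
  have haS : ∀ J, Δ₀ * a i J ∈ O := fun J => hO (hΔS _ (hSa ⟨i, J⟩))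
  have hΔg : Δ₀ * form (a i) (fun l => x l / x j) ∈ O :=
    dirOne_form_mem O Δ₀ (a i) haS _ hxO
  by_cases hiC : i ∈ C
  · -- ramified case
    have hu : uu C y i = y i := if_pos hiC
    have hdm : d i = m i * e i := hnum.deg i hiC
    have hm : 0 < m i := by
      rcases Nat.eq_zero_or_pos (m i) with h0 | h0
      · have := hnum.pos i
        rw [hdm, h0, zero_mul] at this
        exact absurd this (lt_irrefl 0)
      · exact h0
    rw [hu]
    generalize hgg : form (a i) (fun l => x l / x j) = g at hg0 hΔg hgeq ⊢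
    generalize hyy : y i / x j ^ e i = yt
    have hyg : yt ^ m i = g := by
      have hpw : x j ^ d i = x j ^ (e i * m i) :=
        congrArg (fun r => x j ^ r) (hdm.trans (mul_comm _ _))
      rw [← hyy, div_pow, hgood.root i hiC, hgeq, ← pow_mul, hpw]
    have hy0 : yt ≠ 0 := by
      intro h0
      rw [h0, zero_pow hm.ne'] at hyg
      exact hg0 hyg.symm
    have hΔy : Δ₀ * yt ∈ O := by
      refine dirOne_pow_mem O hm ?_
      obtain ⟨r, hr⟩ := Nat.exists_eq_succ_of_ne_zero hm.ne'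
      have h1 : (Δ₀ * yt) ^ m i = Δ₀ ^ r * (Δ₀ * g) := by
        rw [mul_pow, hyg, hr, pow_succ]
        ring
      rw [h1]
      exact mul_mem (pow_mem hΔO r) hΔg
    refine ⟨?_, fun p => ?_⟩
    · have h1 : Δ₀ ^ 3 * yt = Δ₀ ^ 2 * (Δ₀ * yt) := by ring
      rw [h1]
      exact mul_mem (pow_mem hΔO 2) hΔy
    · have h2 : D p g = (m i : L) * yt ^ (m i - 1) * D p yt := by
        rw [← hyg, Derivation.leibniz_pow, smul_eq_mul, nsmul_eq_mul]
        ring
      have h3 : yt * (D p g / g) = (m i : L) * D p yt := by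
        rw [h2, ← hyg]
        obtain ⟨r, hr⟩ := Nat.exists_eq_succ_of_ne_zero hm.ne'
        rw [hr, Nat.succ_sub_one, pow_succ]
        field_simp
      have h4 : Δ₀ ^ 3 * D p yt =
          Δ₀ * (Δ₀ * D p (Δ₀ * yt)) - (Δ₀ * yt) * (Δ₀ * D p Δ₀) := by
        rw [Derivation.leibniz, smul_eq_mul, smul_eq_mul]
        ring
      have h5 : Δ₀ ^ 3 * D p yt ∈ O := by
        rw [h4]
        exact sub_mem (mul_mem hΔO (hb.2 p _ hΔy)) (mul_mem hΔy (hb.2 p _ hΔO))
      have h6 : Δ₀ ^ 3 * (yt * (D p g / g)) = (m i : L) * (Δ₀ ^ 3 * D p yt) := by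
        rw [h3]
        ring
      rw [h6]
      exact mul_mem (natCast_mem O (m i)) h5
  · -- unramified case
    have hu : uu C y i = 1 := if_neg hiC
    have he : e i = 0 := hnum.e0 i hiC
    rw [hu, he, pow_zero, div_one]
    refine ⟨by rw [mul_one]; exact pow_mem hΔO 3, fun p => ?_⟩
    rw [one_mul]
    have key : Δ₀ ^ 2 * (D p (form (a i) fun l => x l / x j) /
        form (a i) fun l => x l / x j) ∈ O := by
      by_cases hinv : Δ₀⁻¹ ∈ O
      · have hSO : ∀ f ∈ S, f ∈ O := fun f hf => by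
          have h1 : f = Δ₀⁻¹ * (Δ₀ * f) := by
            rw [← mul_assoc, inv_mul_cancel₀ hΔ0, one_mul]
          rw [h1]
          exact mul_mem hinv (hO (hΔS f hf))
        have hA : Subring.closure ((E₀ : Set L) ∪ S) ≤ O.toSubring := by
          rw [Subring.closure_le]
          rintro f (hf | hf)
          · exact hO (hE₀R f hf)
          · exact hSO f hf
        have hint := dirOne_int_mem O _ hA (hgood.int i hi hiC (Sym.replicate (d i) j))
        rw [dirOne_mon_replicate] at hint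
        have hgi : (form (a i) (fun l => x l / x j))⁻¹ ∈ O := by
          rw [hgeq, inv_div]
          exact hint
        have hgO : form (a i) (fun l => x l / x j) ∈ O := by
          have h1 := dirOne_form_mem O 1 (a i)
            (fun J => by rw [one_mul]; exact hSO _ (hSa ⟨i, J⟩)) _ hxO
          rwa [one_mul] at h1
        have h2 : Δ₀ ^ 2 * (D p (form (a i) fun l => x l / x j) /
            form (a i) fun l => x l / x j) =
            Δ₀ * ((Δ₀ * D p (form (a i) fun l => x l / x j)) *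
              (form (a i) (fun l => x l / x j))⁻¹) := by
          rw [div_eq_mul_inv]
          ring
        rw [h2]
        exact mul_mem hΔO (mul_mem (hb.2 p _ hgO) hgi)
      · have hb2 : Bdd D (Δ₀ ^ 2) O := by
          refine ⟨pow_mem hΔO 2, fun p f hf => ?_⟩
          have h1 : Δ₀ ^ 2 * D p f = Δ₀ * (Δ₀ * D p f) := by ring
          rw [h1]
          exact mul_mem hΔO (hb.2 p f hf)
        refine log_of (intCl E₀ t) hQ D O hO (Δ₀ ^ 2) hb2 Δ₀ hΔ0 (Or.inr hinv) (fun q => ?_)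
          _ hg0 p
        have h1 : Δ₀ ^ 2 * (D q Δ₀ / Δ₀) = Δ₀ * D q Δ₀ := by
          field_simp
        rw [h1]
        exact hb.2 q _ hΔO
    have h3 : Δ₀ ^ 3 * (D p (form (a i) fun l => x l / x j) /
        form (a i) fun l => x l / x j) =
        Δ₀ * (Δ₀ ^ 2 * (D p (form (a i) fun l => x l / x j) /
        form (a i) fun l => x l / x j)) := by
      ring
    rw [h3]
    exact mul_mem hΔO key

end Pool.Agent.Helper8.CO
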