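import Pool.Agent.Helper6.CO.Defs
import Pool.Agent.Helper8.LV.KeyFun

/-! # CO: the chain rule -/

set_option autoImplicit false

namespace Pool.Agent.Helper8.CO

open scoped BigOperators
open Pool.Agent.Helper8.LG Pool.Agent.Helper6.CO

/-- the chain rule for a derivation that kills `k` -/
theorem der_aeval {k E S : Type*} [Field k] [Field E] [Algebra k E] [Fintype S]
    (D : Derivation ℤ E E) (hD : ∀ c : k, D (algebraMap k E c) = 0) (h : S → E)
    (Q : MvPolynomial S k) :
    D (MvPolynomial.aeval h Q) =
      ∑ s, MvPolynomial.aeval h (MvPolynomial.pderiv s Q) * D (h s) := by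
  classical
  induction Q using MvPolynomial.induction_on with
  | C c =>
    simp [hD]
  | add P Q hP hQ =>
    simp only [map_add, hP, hQ, add_mul, Finset.sum_add_distrib]
  | mul_X P j hP =>
    rw [map_mul, MvPolynomial.aeval_X, Derivation.leibniz, hP]
    have h1 : ∀ s, MvPolynomial.aeval h (MvPolynomial.pderiv s (P * MvPolynomial.X j)) * D (h s) =
        MvPolynomial.aeval h P * (if s = j then D (h j) else 0) +
          h j * (MvPolynomial.aeval h (MvPolynomial.pderiv s P) * D (h s)) := by
      intro s
      rw [Derivation.leibniz, MvPolynomial.pderiv_X]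
      simp only [smul_eq_mul, map_add, map_mul, MvPolynomial.aeval_X]
      by_cases hs : s = j
      · subst hs
        rw [if_pos rfl, Pi.single_eq_same, map_one]
        ring
      · rw [if_neg hs, Pi.single_eq_of_ne (Ne.symm hs), map_zero]
        ring
    rw [Finset.sum_congr rfl fun s _ => h1 s, Finset.sum_add_distrib, ← Finset.mul_sum,
      ← Finset.mul_sum, Finset.sum_ite_eq' Finset.univ j]
    simp only [Finset.mem_univ, if_true, smul_eq_mul]

theorem fam_map {k E E' σ ι κ : Type*} [Field k] [Field E] [Field E'] [Algebra k E]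
    [Algebra k E'] [Fintype σ] [DecidableEq σ] [Fintype κ] [DecidableEq ι] {bl : κ → ι}
    {d : ι → ℕ} {b q : κ → ℕ} {a : (i : ι) → Sym σ (d i) → E} {p : (t : κ) → Sym σ (b t) → E}
    {h : (t : κ) → Sym σ (q t) → E} {Q : (i : ι) → Sym σ (d i) → MvPolynomial (Ix σ q) k}
    (H : Fam k bl d b q a p h Q) (f : E →ₐ[k] E') :
    Fam k bl d b q (fun i J => f (a i J)) (fun t J => f (p t J)) (fun t J => f (h t J)) Q where
  deg := H.deg
  eq := fun i J => by
    rw [← H.eq i J]
    have h1 : f.comp (MvPolynomial.aeval fun s : Ix σ q => h s.1 s.2) =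
        MvPolynomial.aeval fun s : Ix σ q => f (h s.1 s.2) :=
      MvPolynomial.algHom_ext fun s => by simp
    exact (DFunLike.congr_fun h1 (Q i J)).symm
  der := fun i J s => by
    have h1 : f.comp (MvPolynomial.aeval fun s : Ix σ q => h s.1 s.2) =
        MvPolynomial.aeval fun s : Ix σ q => f (h s.1 s.2) :=
      MvPolynomial.algHom_ext fun s => by simp
    have h2 := DFunLike.congr_fun h1 (MvPolynomial.pderiv s (Q i J))
    rw [← h2]
    show f (MvPolynomial.aeval (fun s : Ix σ q => h s.1 s.2) (MvPolynomial.pderiv s (Q i J))) = _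
    rw [H.der i J s]
    split_ifs
    · rw [map_sum]
      refine Finset.sum_congr rfl fun J' _ => ?_
      split_ifs
      · rfl
      · exact map_zero _
    · exact map_zero _

theorem fam_mov {k E σ ι κ P : Type*} [Field k] [Field E] [Algebra k E] [Fintype σ]
    [DecidableEq σ] [Fintype κ] [DecidableEq ι] {bl : κ → ι} {d : ι → ℕ} {b q : κ → ℕ}
    {a : (i : ι) → Sym σ (d i) → E} {p : (t : κ) → Sym σ (b t) → E}
    {h : (t : κ) → Sym σ (q t) → E} {Q : (i : ι) → Sym σ (d i) → MvPolynomial (Ix σ q) k}
    (H : Fam k bl d b q a p h Q) (D : P → Derivation ℤ E E)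
    (hD : ∀ s (c : k), D s (algebraMap k E c) = 0) : Mov bl d b q a p h D where
  deg := H.deg
  der := fun s i x => by
    classical
    have h1 : ∀ J, D s (a i J) = ∑ r : Ix σ q, (if bl r.1 = i then
        ∑ J' : Sym σ (b r.1), (if (J' : Multiset σ) + (r.2 : Multiset σ) = (J : Multiset σ)
          then p r.1 J' else 0) else 0) * D s (h r.1 r.2) := by
      intro J
      rw [← H.eq i J, der_aeval (D s) (hD s)]
      exact Finset.sum_congr rfl fun r _ => by rw [H.der i J r]
    calc ∑ J, D s (a i J) * mon x J
        = ∑ J : Sym σ (d i), ∑ r : Ix σ q, ((if bl r.1 = i then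
          ∑ J' : Sym σ (b r.1), (if (J' : Multiset σ) + (r.2 : Multiset σ) = (J : Multiset σ)
            then p r.1 J' else 0) else 0) * D s (h r.1 r.2)) * mon x J := by
          refine Finset.sum_congr rfl fun J _ => ?_
          rw [h1 J, Finset.sum_mul]
      _ = ∑ r : Ix σ q, ∑ J : Sym σ (d i), ((if bl r.1 = i then
          ∑ J' : Sym σ (b r.1), (if (J' : Multiset σ) + (r.2 : Multiset σ) = (J : Multiset σ)
            then p r.1 J' else 0) else 0) * D s (h r.1 r.2)) * mon x J := Finset.sum_comm
      _ = ∑ t, ∑ J'' : Sym σ (q t), ∑ J : Sym σ (d i), ((if bl t = i then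
          ∑ J' : Sym σ (b t), (if (J' : Multiset σ) + (J'' : Multiset σ) = (J : Multiset σ)
            then p t J' else 0) else 0) * D s (h t J'')) * mon x J := by
          rw [Fintype.sum_sigma]
      _ = ∑ t, if bl t = i then form (p t) x * ∑ J, D s (h t J) * mon x J else 0 := by
          refine Finset.sum_congr rfl fun t _ => ?_
          by_cases ht : bl t = i
          · simp only [if_pos ht]
            have hdeg : d i = b t + q t := by rw [← ht]; exact H.deg t
            have h2 := Helper8.LV.kf_conv hdeg (p t) (fun J => D s (h t J)) x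
            unfold form
            rw [h2, Finset.sum_comm]
            refine Finset.sum_congr rfl fun J _ => ?_
            rw [← Finset.sum_mul]
            congr 1
            rw [Finset.sum_comm (γ := Sym σ (b t))]
            refine Finset.sum_congr rfl fun J'' _ => ?_
            rw [Finset.sum_mul]
            refine Finset.sum_congr rfl fun J' _ => ?_
            split_ifs
            · rfl
            · rw [zero_mul]
          · simp only [if_neg ht, zero_mul, Finset.sum_const_zero]

end Pool.Agent.Helper8.CO
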