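import Pool.Agent.Helper6.CO.Key
import Pool.Agent.Helper8.CO.DirOne
import Pool.Agent.Helper8.CO.FamMov
import Pool.Agent.Helper8.LV.DirTwo
import Pool.Agent.Helper8.LG.FinDim

/-! # CO-BD: everything lies in a finite-dimensional space -/

set_option autoImplicit false

namespace Pool.Agent.Helper8.CO

open Pool.Agent.Helper8.LG Pool.Agent.Helper8.LV Pool.Agent.Helper6.CO

open scoped BigOperators

private theorem bdInv {L : Type*} [Field L] (D : Derivation ℤ L L) (f : L) :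
    D f⁻¹ = -(f⁻¹ ^ 2) * D f := by
  have h := Derivation.leibniz_inv D f
  rw [h, smul_eq_mul]

private theorem bdDual {L σ ι τ : Type*} [Field L] [DecidableEq σ] [DecidableEq ι] [Fintype τ]
    (d : ι → ℕ) (a : (i : ι) → Sym σ (d i) → L)
    (D : Ix σ d → Derivation ℤ L L) (jj : τ → Ix σ d) (θ : τ → Ix σ d → L)
    (hD : Dual d a D jj θ) (T : Finset (Ix σ d)) (hT : ∀ j, jj j ∉ T) (q : Ix σ d) (p : T) :
    D q (a p.1.1 p.1.2) = if q = p.1 then 1 else 0 := by
  have h := hD q p.1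
  rw [Finset.sum_eq_zero, sub_zero] at h
  · exact h
  · intro j _
    rw [if_neg]
    rintro h1
    exact hT j (h1 ▸ p.2)

private theorem bdStable {k L σ ι τ : Type*} [Field k] [Field L] [Algebra k L]
    [DecidableEq σ] [DecidableEq ι] [Fintype τ]
    (d : ι → ℕ) (a : (i : ι) → Sym σ (d i) → L)
    (D : Ix σ d → Derivation ℤ L L) (jj : τ → Ix σ d) (θ : τ → Ix σ d → L)
    (hD : Dual d a D jj θ) (T : Finset (Ix σ d)) (hT : ∀ j, jj j ∉ T)
    (hDk : ∀ p (c : k), D p (algebraMap k L c) = 0) (p : T) (q : Ix σ d) :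
    ∀ f ∈ others (k := k) (fun p : T => a p.1.1 p.1.2) p,
      D q f ∈ others (k := k) (fun p : T => a p.1.1 p.1.2) p := by
  intro f hf
  have hf' : f ∈ IntermediateField.adjoin k ((fun p : T => a p.1.1 p.1.2) '' {p}ᶜ) := hf
  show D q f ∈ IntermediateField.adjoin k ((fun p : T => a p.1.1 p.1.2) '' {p}ᶜ)
  induction hf' using IntermediateField.adjoin_induction with
  | mem x hx =>
    obtain ⟨r, _, rfl⟩ := hx
    show D q (a r.1.1 r.1.2) ∈ _
    rw [bdDual d a D jj θ hD T hT q r]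
    split_ifs
    · exact one_mem _
    · exact zero_mem _
  | algebraMap c =>
    rw [hDk q c]
    exact zero_mem _
  | add x y hx hy hx' hy' =>
    rw [map_add]
    exact add_mem (hx' hx) (hy' hy)
  | inv x hx hx' =>
    rw [bdInv]
    exact mul_mem (neg_mem (pow_mem (inv_mem hx) 2)) (hx' hx)
  | mul x y hx hy hx' hy' =>
    rw [Derivation.leibniz, smul_eq_mul, smul_eq_mul]
    exact add_mem (mul_mem hx (hy' hy)) (mul_mem hy (hx' hx))

private theorem bdVar {L σ ι τ : Type*} [Field L] [DecidableEq σ] [DecidableEq ι] [Fintype τ]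
    (d : ι → ℕ) (a : (i : ι) → Sym σ (d i) → L)
    (D : Ix σ d → Derivation ℤ L L) (jj : τ → Ix σ d) (θ : τ → Ix σ d → L)
    (hD : Dual d a D jj θ) (T : Finset (Ix σ d)) (hT : ∀ j, jj j ∉ T) (p : T) (q : Ix σ d)
    (R : Subring L) :
    D q (a p.1.1 p.1.2) ∈ R := by
  rw [bdDual d a D jj θ hD T hT q p]
  split_ifs
  · exact one_mem _
  · exact zero_mem _

private theorem bdVarInv {L σ ι τ : Type*} [Field L] [DecidableEq σ] [DecidableEq ι] [Fintype τ]
    (d : ι → ℕ) (a : (i : ι) → Sym σ (d i) → L)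
    (D : Ix σ d → Derivation ℤ L L) (jj : τ → Ix σ d) (θ : τ → Ix σ d → L)
    (hD : Dual d a D jj θ) (T : Finset (Ix σ d)) (hT : ∀ j, jj j ∉ T) (p : T) (q : Ix σ d)
    (R : Subring L) (hR : (a p.1.1 p.1.2)⁻¹ ∈ R) :
    D q (a p.1.1 p.1.2)⁻¹ ∈ R := by
  rw [bdInv]
  exact mul_mem (neg_mem (pow_mem hR 2)) (bdVar d a D jj θ hD T hT p q R)

private theorem bdGood {E σ ι P : Type*} [Field E] [Fintype σ] [DecidableEq σ]
    {d m : ι → ℕ} {a : (i : ι) → Sym σ (d i) → E} {D : P → Derivation ℤ E E}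
    {Z C : Finset ι} {i₀ : σ} {w : ℕ} {A B : Subring E} (hAB : A ≤ B)
    {x : σ → E} {y : ι → E} (h : GoodV d m a D Z C i₀ w A x y) :
    GoodV d m a D Z C i₀ w B x y where
  one := h.one
  zero := h.zero
  ne := h.ne
  root := h.root
  int := fun i hZ hC J =>
    (h.int i hZ hC J).map_of_comp_eq (Subring.inclusion hAB) (RingHom.id E) rfl
  rank := h.rank

private theorem bdLe {k L : Type*} [Field k] [Field L] [Algebra k L] (s : Set L)
    (E₀ : Subfield L) (hk : ∀ c : k, algebraMap k L c ∈ E₀) (S : Set L) (hs : s ⊆ S) :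
    (Algebra.adjoin k s).toSubring ≤ Subring.closure ((E₀ : Set L) ∪ S) := by
  intro f hf
  have hf' : f ∈ Algebra.adjoin k s := hf
  induction hf' using Algebra.adjoin_induction with
  | mem x hx => exact Subring.subset_closure (Or.inr (hs hx))
  | algebraMap c => exact Subring.subset_closure (Or.inl (hk c))
  | add x y hx hy hx' hy' => exact add_mem (hx' hx) (hy' hy)
  | mul x y hx hy hx' hy' => exact mul_mem (hx' hx) (hy' hy)

/-- numerical data for the second round -/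
theorem numV_of {ι κ : Type*} [Fintype ι] [DecidableEq ι] {bl : κ → ι} {q : κ → ℕ}
    {d q₀ e m : ι → ℕ} {Z C Y : Finset ι} {w c : ℕ} (h : NumC bl q d q₀ e m Z C Y w c) :
    NumV d (fun _ => 2 * w + 2 + ∑ i, e i) e m Z C w 0 where
  pos := h.pos
  posq := fun _ => by omega
  disj := h.disj
  deg := h.deg
  e0 := h.e0
  ineq := by
    rcases isEmpty_or_nonempty ι with hι | ⟨⟨i⟩⟩
    · have h1 := h.ineq
      have h2 : Z.card = 0 := by
        rw [Finset.card_eq_zero, Finset.eq_empty_iff_forall_notMem]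
        exact fun i => (hι.false i).elim
      have h3 : ∑ i, qm Y d q₀ i = 0 := by
        rw [Finset.univ_eq_empty, Finset.sum_empty]
      omega
    · have h1 : 2 * w + 2 + ∑ i, e i ≤ ∑ _i : ι, (2 * w + 2 + ∑ i, e i) :=
        Finset.single_le_sum (f := fun _ : ι => 2 * w + 2 + ∑ i, e i)
          (fun _ _ => Nat.zero_le _) (Finset.mem_univ i)
      omega

theorem bounded {k L : Type*} [Field k] [Field L] [CharZero L] [Algebra k L]
    {σ ι κ τ : Type*} [Fintype σ] [DecidableEq σ] [Fintype ι] [DecidableEq ι] [Fintype κ]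
    [DecidableEq κ] [Fintype τ] (bl : κ → ι) (b q : κ → ℕ)
    (d q₀ e m : ι → ℕ) (a : (i : ι) → Sym σ (d i) → L) (ap : (t : κ) → Sym σ (b t) → L)
    (ah : (t : κ) → Sym σ (q t) → L) (F : (i : ι) → Sym σ (d i) → MvPolynomial (Ix σ q) k)
    (hF : Fam k bl d b q a ap ah F) (T : Finset (Ix σ q))
    (hind : AlgebraicIndependent k (fun p : T => ah p.1.1 p.1.2))
    (hfin : FiniteDimensional
      (IntermediateField.adjoin k (Set.range fun p : T => ah p.1.1 p.1.2)) L)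
    (D : Ix σ q → Derivation ℤ L L) (jj : τ → Ix σ q) (θ : τ → Ix σ q → L)
    (hD : Dual q ah D jj θ) (hT : ∀ j, jj j ∉ T)
    (hDk : ∀ p (c : k), D p (algebraMap k L c) = 0)
    (Z C Y : Finset ι) (i₀ : σ) (w : ℕ)
    (hnum : NumC bl q d q₀ e m Z C Y w (Fintype.card τ)) (hN : NulP bl ap Y)
    (A : Subalgebra k L) (hA : A.FG) :
    ∃ V : Submodule k L, FiniteDimensional k V ∧ ∀ (x : σ → L) (y : ι → L),
      GoodV d m a D Z C i₀ w A.toSubring x y → (∀ i, ∃ t, bl t = i ∧ form (ap t) x ≠ 0) →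
      ∃ G : L, G ≠ 0 ∧ (∀ l, G * x l ∈ V) ∧
        (∀ i ∉ Z, i ∉ C → ∀ J : Sym σ (d i), mon x J / form (a i) x ∈ V) ∧
        ∀ i ∈ C, G ^ e i * y i ∈ V := by
  classical
  obtain ⟨s, hs⟩ := hA
  set y₀ : T → L := fun p : T => ah p.1.1 p.1.2 with hy₀
  obtain ⟨S₀, hS₀, hNb⟩ := nul_bound (E := L) bl ap Y hN
  set S : Set L := (s : Set L) ∪ ((Set.range (fun p : Ix σ d => a p.1 p.2) ∪
    Set.range fun r : τ × Ix σ q => θ r.1 r.2) ∪ S₀) with hS
  have hSfin : S.Finite :=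
    (s.finite_toSet).union (((Set.finite_range _).union (Set.finite_range _)).union hS₀)
  have hSa : ∀ p : Ix σ d, a p.1 p.2 ∈ S := fun p => Or.inr (Or.inl (Or.inl ⟨p, rfl⟩))
  have hSθ : ∀ j s, θ j s ∈ S := fun j s => Or.inr (Or.inl (Or.inr ⟨(j, s), rfl⟩))
  have hSN : ∀ (O : ValuationSubring L) (Δ : L), (∀ f ∈ S, Δ * f ∈ O) → ∀ x : σ → L,
      Nul bl ap Y O Δ x := fun O Δ h x =>
    hNb (RingHom.id L) O Δ (fun f hf => h f (Or.inr (Or.inr hf))) x
  have hk : ∀ (p : T) (c : k), algebraMap k L c ∈ others (k := k) y₀ p := by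
    intro p c
    exact IntermediateField.algebraMap_mem _ c
  have hAle : ∀ p : T,
      A.toSubring ≤ Subring.closure ((others (k := k) y₀ p : Set L) ∪ S) := by
    intro p
    rw [← hs]
    exact bdLe (s : Set L) _ (hk p) S Set.subset_union_left
  have htr := others_transcendental (k := k) y₀ hind
  have hof := others_finite (k := k) y₀ hfin
  have hst : ∀ (p : T) (s : Ix σ q), ∀ f ∈ others (k := k) y₀ p,
      D s f ∈ others (k := k) y₀ p :=
    fun p s => bdStable q ah D jj θ hD T hT hDk p s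
  -- first round
  have h1 : ∀ p : T, ∃ Δ : L, Δ ≠ 0 ∧ ∀ (x : σ → L) (y : ι → L) (G : L),
      GoodV d m a D Z C i₀ w (Subring.closure ((others (k := k) y₀ p : Set L) ∪ S)) x y →
      KeyC bl d e a ap D θ Z Y (uu C y) x G →
      ∀ l, Δ * (G * x l) ∈ intCl (others (k := k) y₀ p) (y₀ p) := by
    intro p
    exact dir_one bl b q d q₀ e m a ap D θ Z C Y i₀ w _ hnum (others (k := k) y₀ p) (y₀ p) (htr p).1 (hof p).1
      (fun s => hst p s) (fun s => bdVar q ah D jj θ hD T hT p s _) S hSfin hSa hSθ hSN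
  have h1' : ∀ p : T, ∃ Δ : L, Δ ≠ 0 ∧ ∀ (x : σ → L) (y : ι → L) (G : L),
      GoodV d m a D Z C i₀ w (Subring.closure ((others (k := k) y₀ p : Set L) ∪ S)) x y →
      KeyC bl d e a ap D θ Z Y (uu C y) x G →
      ∀ l, Δ * (G * x l) ∈ intCl (others (k := k) y₀ p) (y₀ p)⁻¹ := by
    intro p
    exact dir_one bl b q d q₀ e m a ap D θ Z C Y i₀ w _ hnum (others (k := k) y₀ p) (y₀ p)⁻¹ (htr p).2 (hof p).2
      (fun s => hst p s)
      (fun s => bdVarInv q ah D jj θ hD T hT p s _ (Subring.subset_closure (Or.inr rfl)))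
      S hSfin hSa hSθ hSN
  choose Δ₁ hΔ₁ H₁ using h1
  choose Δ₁' hΔ₁' H₁' using h1'
  obtain ⟨V₁, hV₁, hV₁'⟩ := fd y₀ hind hfin Δ₁ Δ₁' hΔ₁ hΔ₁'
  -- second round
  have h2 : ∀ p : T, ∃ Δ : L, Δ ≠ 0 ∧ ∀ (x : σ → L) (y : ι → L) (G : L),
      GoodV d m a D Z C i₀ w (Subring.closure ((others (k := k) y₀ p : Set L) ∪ S)) x y →
      G ≠ 0 → (∀ l, G * x l ∈ V₁) →
      (∀ i ∉ Z, i ∉ C → ∀ J : Sym σ (d i),
        Δ * (mon x J / form (a i) x) ∈ intCl (others (k := k) y₀ p) (y₀ p)) ∧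
      ∀ i ∈ C, Δ * (G ^ e i * y i) ∈ intCl (others (k := k) y₀ p) (y₀ p) := by
    intro p
    exact dir_two d _ e m a D Z C i₀ w _ (numV_of hnum) (others (k := k) y₀ p) (hk p) (y₀ p) (htr p).1
      (hof p).1 S hSfin hSa V₁
  have h2' : ∀ p : T, ∃ Δ : L, Δ ≠ 0 ∧ ∀ (x : σ → L) (y : ι → L) (G : L),
      GoodV d m a D Z C i₀ w (Subring.closure ((others (k := k) y₀ p : Set L) ∪ S)) x y →
      G ≠ 0 → (∀ l, G * x l ∈ V₁) →
      (∀ i ∉ Z, i ∉ C → ∀ J : Sym σ (d i),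
        Δ * (mon x J / form (a i) x) ∈ intCl (others (k := k) y₀ p) (y₀ p)⁻¹) ∧
      ∀ i ∈ C, Δ * (G ^ e i * y i) ∈ intCl (others (k := k) y₀ p) (y₀ p)⁻¹ := by
    intro p
    exact dir_two d _ e m a D Z C i₀ w _ (numV_of hnum) (others (k := k) y₀ p) (hk p) (y₀ p)⁻¹ (htr p).2
      (hof p).2 S hSfin hSa V₁
  choose Δ₂ hΔ₂ H₂ using h2
  choose Δ₂' hΔ₂' H₂' using h2'
  obtain ⟨V₂, hV₂, hV₂'⟩ := fd y₀ hind hfin Δ₂ Δ₂' hΔ₂ hΔ₂'
  haveI := hV₁
  haveI := hV₂
  refine ⟨V₁ ⊔ V₂, inferInstance, ?_⟩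
  intro x y hgood hP
  have hg : ∀ p : T,
      GoodV d m a D Z C i₀ w (Subring.closure ((others (k := k) y₀ p : Set L) ∪ S)) x y :=
    fun p => bdGood (hAle p) hgood
  have hu : ∀ i ∉ Z, uu C y i ≠ 0 := by
    intro i hi
    unfold uu
    by_cases hC : i ∈ C
    · rw [if_pos hC]
      intro h0
      have hr := hgood.root i hC
      have hm : m i ≠ 0 := by
        intro hm0
        have h1 := hnum.deg i hC
        have h2 := hnum.pos i
        rw [hm0, zero_mul] at h1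
        omega
      rw [h0, zero_pow hm] at hr
      exact hgood.ne i hi hr.symm
    · rw [if_neg hC]
      exact one_ne_zero
  obtain ⟨G, hG, hKey⟩ := key bl d e q₀ b q
    (fun t => (hnum.posq (bl t)).trans_le (hnum.le t)) hnum.le a ap ah D jj θ hD
    (fam_mov hF D hDk) Z Y x i₀ hgood.one hgood.zero hgood.ne hP
    (uu C y) hu w hnum.ineq hgood.rank
  have hGx : ∀ l, G * x l ∈ V₁ := by
    intro l
    apply hV₁'
    intro p
    exact ⟨H₁ p x y G (hg p) hKey l, H₁' p x y G (hg p) hKey l⟩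
  refine ⟨G, hG, fun l => Submodule.mem_sup_left (hGx l), ?_, ?_⟩
  · intro i hi hC J
    apply Submodule.mem_sup_right
    apply hV₂'
    intro p
    exact ⟨(H₂ p x y G (hg p) hG hGx).1 i hi hC J, (H₂' p x y G (hg p) hG hGx).1 i hi hC J⟩
  · intro i hC
    apply Submodule.mem_sup_right
    apply hV₂'
    intro p
    exact ⟨(H₂ p x y G (hg p) hG hGx).2 i hC, (H₂' p x y G (hg p) hG hGx).2 i hC⟩

end Pool.Agent.Helper8.CO
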