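import Pool.Agent.Helper8.CO.Bound
import Pool.Agent.Helper8.CO.Ultra
import Pool.Agent.Helper8.LG.Trd
import Pool.Agent.Helper8.LG.Reduce

/-! # CO-FINAL: the theorem over fields -/

set_option autoImplicit false

namespace Pool.Agent.Helper8.CO

open Pool.Agent.Helper8.LG Pool.Agent.Helper8.LV Pool.Agent.Helper6.CO

open scoped BigOperators

theorem num_mono {ι κ : Type*} [Fintype ι] [DecidableEq ι] {bl : κ → ι} {q : κ → ℕ}
    {d q₀ e m : ι → ℕ} {Z C Y : Finset ι} {w c c' : ℕ}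
    (h : NumC bl q d q₀ e m Z C Y w c) (hc : c' ≤ c) : NumC bl q d q₀ e m Z C Y w c' where
  pos := h.pos
  posq := h.posq
  le := h.le
  disj := h.disj
  deg := h.deg
  e0 := h.e0
  ineq := by
    have := h.ineq
    omega

theorem fam_tower {k₀ k L σ ι κ : Type*} [Field k₀] [Field k] [Field L] [Algebra k₀ L]
    [Algebra k L] [Algebra k₀ k] [IsScalarTower k₀ k L] [Fintype σ] [DecidableEq σ] [Fintype κ]
    [DecidableEq ι] {bl : κ → ι} {d : ι → ℕ} {b q : κ → ℕ}
    {a : (i : ι) → Sym σ (d i) → L} {p : (t : κ) → Sym σ (b t) → L}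
    {h : (t : κ) → Sym σ (q t) → L} {Q : (i : ι) → Sym σ (d i) → MvPolynomial (Ix σ q) k₀}
    (H : Fam k₀ bl d b q a p h Q) :
    Fam k bl d b q a p h fun i J => MvPolynomial.map (algebraMap k₀ k) (Q i J) where
  deg := H.deg
  eq := fun i J => by
    rw [MvPolynomial.aeval_map_algebraMap]
    exact H.eq i J
  der := fun i J s => by
    rw [MvPolynomial.pderiv_map, MvPolynomial.aeval_map_algebraMap]
    exact H.der i J s

/-- normalised points, all roots non-zero -/
theorem final_aux {k₀ L : Type*} [Field k₀] [Field L] [CharZero L] [Algebra k₀ L]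
    (hfg : (⊤ : IntermediateField k₀ L).FG)
    {σ ι κ : Type*} [Fintype σ] [DecidableEq σ] [Fintype ι] [DecidableEq ι] [Fintype κ]
    [DecidableEq κ] (bl : κ → ι) (b q : κ → ℕ)
    (d q₀ e m : ι → ℕ) (a : (i : ι) → Sym σ (d i) → L) (ap : (t : κ) → Sym σ (b t) → L)
    (ah : (t : κ) → Sym σ (q t) → L) (F₀ : (i : ι) → Sym σ (d i) → MvPolynomial (Ix σ q) k₀)
    (hFam : Fam k₀ bl d b q a ap ah F₀) (w c : ℕ)
    (hc : (Fintype.card (Ix σ q) : Cardinal) ≤ Algebra.trdeg k₀
      (IntermediateField.adjoin k₀ (Set.range fun p : Ix σ q => ah p.1 p.2)) + c)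
    (Z C Y : Finset ι) (i₀ : σ) (hnum : NumC bl q d q₀ e m Z C Y w c) (hNP : NulP bl ap Y)
    (A : Subalgebra k₀ L) (hA : A.FG) :
    {x : σ → L | x i₀ = 1 ∧
      Algebra.trdeg k₀ (IntermediateField.adjoin k₀ (Set.range x)) ≤ w ∧
      (∀ i, ∃ t, bl t = i ∧ form (ap t) x ≠ 0) ∧
      (∀ i ∈ Z, form (a i) x = 0) ∧ (∀ i ∉ Z, form (a i) x ≠ 0) ∧
      (∀ i ∈ C, ∃ y : L, y ^ m i = form (a i) x) ∧
      ∀ i ∉ Z, i ∉ C → ∀ J : Sym σ (d i), IsIntegral A (mon x J / form (a i) x)}.Finite := by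
  classical
  obtain ⟨T, k, hT, hind, hfin, D, θ, hD, hDk⟩ := reduce hfg q ah c hc
  have hnum' := num_mono hnum hT
  -- the algebra over `k`
  obtain ⟨s, hs⟩ := hA
  set A' : Subalgebra k L := Algebra.adjoin k (s : Set L) with hA'
  have hAA' : ∀ f ∈ A, f ∈ A' := by
    intro f hf
    rw [← hs] at hf
    induction hf using Algebra.adjoin_induction with
    | mem x hx => exact Algebra.subset_adjoin hx
    | algebraMap r =>
      have h1 : algebraMap k₀ L r = algebraMap k L (algebraMap k₀ k r) :=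
        IsScalarTower.algebraMap_apply k₀ k L r
      rw [h1]
      exact A'.algebraMap_mem _
    | add x y _ _ hx hy => exact add_mem hx hy
    | mul x y _ _ hx hy => exact mul_mem hx hy
  have hFam' := fam_tower (k := k) hFam
  obtain ⟨V, hV, hVb⟩ := bounded bl b q d q₀ e m a ap ah _ hFam' T hind hfin D
    (fun j => j.1) θ hD (fun j => j.2) hDk Z C Y i₀ w hnum' hNP A' ⟨s, rfl⟩
  haveI := hV
  refine ultra (k := k) bl b q d q₀ e m a ap ah _ hFam' D (fun j => j.1) θ hD hDk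
    Z C Y i₀ w hnum' hNP V _ ?_
  rintro x ⟨h1, h2, hP, h3, h4, h5, h6⟩
  have hrank : MinorsVanish D x w := by
    refine minors_of_trdeg (k := k₀) D ?_ x i₀ h1 w h2
    intro p r
    have h7 : algebraMap k₀ L r = algebraMap k L (algebraMap k₀ k r) :=
      IsScalarTower.algebraMap_apply k₀ k L r
    rw [h7]
    exact hDk p _
  choose y hy using h5
  set y' : ι → L := fun i => if h : i ∈ C then y i h else 0 with hy'
  have hyy : ∀ i ∈ C, y' i ^ m i = form (a i) x := by
    intro i hi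
    rw [hy']
    simp only [dif_pos hi]
    exact hy i hi
  have hgood : GoodV d m a D Z C i₀ w A'.toSubring x y' := by
    refine ⟨h1, h3, h4, hyy, ?_, hrank⟩
    intro i hiZ hiC J
    have h8 := h6 i hiZ hiC J
    exact h8.map_of_comp_eq (Subring.inclusion (S := A.toSubring) (T := A'.toSubring)
      (fun f hf => hAA' f hf)) (RingHom.id L) rfl
  obtain ⟨G, hG, hG1, hG2, hG3⟩ := hVb x y' hgood hP
  exact ⟨h1, h3, h4, hP, hrank, y', G, hG, hG1, hG2, hyy, hG3⟩

end Pool.Agent.Helper8.CO
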